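import Pool.Agent.H30.PD.Basic

/-!
# [H30 PD PAIR] The pairing of a plant with the coordinates of a compensator
-/

set_option autoImplicit false

open Polynomial

namespace Pool.H30.PD

variable {p m : ℕ} {J A : Type}

/-- the pairing of the rows `P i` with a multilinear array `x` -/
def pr [CommRing A] [Fintype J] (P : Matrix (Fin p) J A) (x : (Fin p → J) → A) : A :=
  ∑ e : Fin p → J, (∏ i, P i (e i)) * x e

/-- rows of the identity matrix -/
def sel [CommRing A] [DecidableEq J] (e : Fin p → J) : Matrix (Fin p) J A :=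
  Matrix.of fun i j => if j = e i then 1 else 0

/-- the coordinates of a compensator -/
def xx [CommRing A] (P₂ : Matrix (Fin m) (Fin p ⊕ Fin m) A) (e : Fin p → Fin p ⊕ Fin m) : A :=
  (Matrix.fromRows (sel e) P₂).det

private theorem det_expand [CommRing A] (P₁ : Matrix (Fin p) (Fin p ⊕ Fin m) A)
    (P₂ : Matrix (Fin m) (Fin p ⊕ Fin m) A) :
    (Matrix.fromRows P₁ P₂).det = ∑ σ : Equiv.Perm (Fin p ⊕ Fin m),
      ((Equiv.Perm.sign σ : ℤ) : A) * ((∏ i, P₁ i (σ (Sum.inl i))) * ∏ k, P₂ k (σ (Sum.inr k))) := by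
  rw [← Matrix.det_transpose, Matrix.det_apply']
  refine Finset.sum_congr rfl fun σ _ => ?_
  congr 1
  rw [Fintype.prod_sum_type]
  rfl

theorem det_fromRows_pr [CommRing A] (P₁ : Matrix (Fin p) (Fin p ⊕ Fin m) A)
    (P₂ : Matrix (Fin m) (Fin p ⊕ Fin m) A) :
    (Matrix.fromRows P₁ P₂).det = pr P₁ (xx P₂) := by
  classical
  unfold pr xx
  simp_rw [det_expand]
  simp_rw [Finset.mul_sum]
  rw [Finset.sum_comm]
  refine Finset.sum_congr rfl fun σ _ => ?_
  symm
  rw [Finset.sum_eq_single fun i => σ (Sum.inl i)]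
  · have h1 : ∏ i, (sel (fun i => σ (Sum.inl i)) : Matrix (Fin p) (Fin p ⊕ Fin m) A) i
        (σ (Sum.inl i)) = 1 := by
      refine Finset.prod_eq_one fun i _ => ?_
      show (if σ (Sum.inl i) = σ (Sum.inl i) then (1 : A) else 0) = 1
      rw [if_pos rfl]
    rw [h1]
    ring
  · intro e _ he
    obtain ⟨i, hi⟩ : ∃ i, σ (Sum.inl i) ≠ e i := by
      by_contra hcon
      push Not at hcon
      exact he (funext fun i => (hcon i).symm)
    have h1 : ∏ i, (sel e : Matrix (Fin p) (Fin p ⊕ Fin m) A) i (σ (Sum.inl i)) = 0 := by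
      refine Finset.prod_eq_zero (Finset.mem_univ i) ?_
      show (if σ (Sum.inl i) = e i then (1 : A) else 0) = 0
      rw [if_neg hi]
    rw [h1]
    ring
  · intro h
    exact absurd (Finset.mem_univ _) h

/-- multiplication of the plant by a square matrix -/
theorem det_fromRows_mul [CommRing A] (U : Matrix (Fin p) (Fin p) A)
    (P₁ : Matrix (Fin p) (Fin p ⊕ Fin m) A) (P₂ : Matrix (Fin m) (Fin p ⊕ Fin m) A) :
    (Matrix.fromRows (U * P₁) P₂).det = U.det * (Matrix.fromRows P₁ P₂).det := by
  have h1 : Matrix.fromRows (U * P₁) P₂ =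
      Matrix.fromBlocks U 0 0 (1 : Matrix (Fin m) (Fin m) A) * Matrix.fromRows P₁ P₂ := by
    rw [Matrix.fromBlocks_mul_fromRows]
    simp
  rw [h1, Matrix.det_mul, Matrix.det_fromBlocks_zero₁₂, Matrix.det_one, mul_one]

/-- the coordinates are maximal minors of the compensator, up to sign -/
theorem xx_natDegree {q : ℕ} {P₂ : Matrix (Fin m) (Fin p ⊕ Fin m) ℝ[X]}
    (h : ∀ e' : Fin m → Fin p ⊕ Fin m, (P₂.submatrix id e').det.natDegree ≤ q)
    (e : Fin p → Fin p ⊕ Fin m) : (xx P₂ e).natDegree ≤ q := by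
  classical
  by_cases he : Function.Injective e
  · -- complete `e` to a bijection
    have hcard : Fintype.card {j // j ∉ Set.range e} = m := by
      have h1 : Fintype.card {j // j ∈ Set.range e} = p := by
        rw [Fintype.card_congr (Equiv.ofInjective e he).symm, Fintype.card_fin]
      have h2 := Fintype.card_subtype_compl (fun j => j ∈ Set.range e)
      rw [h1, Fintype.card_sum, Fintype.card_fin, Fintype.card_fin] at h2
      omega
    let f : Fin m ≃ {j // j ∉ Set.range e} := (Fintype.equivFinOfCardEq hcard).symm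
    let e' : Fin m → Fin p ⊕ Fin m := fun k => f k
    have hbij : Function.Bijective (Sum.elim e e') := by
      rw [Fintype.bijective_iff_injective_and_card]
      refine ⟨?_, rfl⟩
      rintro (i | k) (i' | k') h1
      · exact congrArg Sum.inl (he h1)
      · exact absurd ⟨i, h1⟩ (f k').2
      · exact absurd ⟨i', h1.symm⟩ (f k).2
      · exact congrArg Sum.inr (f.injective (Subtype.ext h1))
    let τ : Equiv.Perm (Fin p ⊕ Fin m) := Equiv.ofBijective _ hbij
    have h3 : (Matrix.fromRows (sel e) P₂).submatrix id τ =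
        Matrix.fromBlocks 1 0 (P₂.submatrix id e) (P₂.submatrix id e') := by
      ext1 (i | k) (i' | k')
      · show (if e i' = e i then (1 : ℝ[X]) else 0) = (1 : Matrix (Fin p) (Fin p) ℝ[X]) i i'
        by_cases hi : i' = i
        · rw [hi, if_pos rfl, Matrix.one_apply_eq]
        · rw [if_neg (fun hc => hi (he hc)), Matrix.one_apply_ne (Ne.symm hi)]
      · show (if e' k' = e i then (1 : ℝ[X]) else 0) = 0
        rw [if_neg]
        exact fun hc => (f k').2 ⟨i, hc.symm⟩
      · rfl
      · rfl
    have h4 := Matrix.det_permute' τ (Matrix.fromRows (sel e) P₂)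
    rw [h3, Matrix.det_fromBlocks_zero₁₂, Matrix.det_one, one_mul] at h4
    have h5 : (xx P₂ e).natDegree = (P₂.submatrix id e').det.natDegree := by
      rw [h4]
      unfold xx
      rcases Int.units_eq_one_or (Equiv.Perm.sign τ) with hs | hs
      · rw [hs]
        simp
      · rw [hs]
        simp
    rw [h5]
    exact h e'
  · obtain ⟨i, i', hne, hii⟩ : ∃ i i', i ≠ i' ∧ e i = e i' := by
      unfold Function.Injective at he
      push Not at he
      obtain ⟨i, i', h1, h2⟩ := he
      exact ⟨i, i', h2, h1⟩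
    have h1 : xx P₂ e = 0 := by
      unfold xx
      refine Matrix.det_zero_of_row_eq (i := Sum.inl i) (j := Sum.inl i')
        (fun hc => hne (Sum.inl_injective hc)) ?_
      funext j
      show (if j = e i then (1 : ℝ[X]) else 0) = if j = e i' then 1 else 0
      rw [hii]
    rw [h1, natDegree_zero]
    exact Nat.zero_le _

end Pool.H30.PD
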