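import Pool.Agent.H30.PD.Gen
import Pool.Agent.H30.PD.Pair

/-!
# [H30 PD ROB] Robustness under small perturbations of the plant

`K` is a closed cone of coefficient arrays. If the plant `P₀` has only trivial solutions in `K` of
`pr P₀ x = a φ`, so have all plants `P₀ + t (Q - P₀)`, `|t| < δ`.
-/

set_option autoImplicit false

open Polynomial

namespace Pool.H30.PD

variable {p : ℕ} {J : Type}

/-- coefficient arrays -/
abbrev Arr (p : ℕ) (J : Type) (q : ℕ) : Type := (Fin p → J) → Fin (q + 1) → ℝ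

/-- the array of polynomials -/
noncomputable def toPol {q : ℕ} (x : Arr p J q) : (Fin p → J) → ℝ[X] := fun e => pol (x e)

/-- the segment from `P₀` to `Q` -/
noncomputable def seg (P₀ Q : Matrix (Fin p) J ℝ[X]) (t : ℝ) : Matrix (Fin p) J ℝ[X] :=
  Matrix.of fun i j => P₀ i j + C t * (Q i j - P₀ i j)

theorem eval_pol {N : ℕ} (a : Fin (N + 1) → ℝ) (s : ℝ) :
    (pol a).eval s = ∑ t : Fin (N + 1), a t * s ^ (t : ℕ) := by
  unfold pol
  rw [eval_finset_sum]
  exact Finset.sum_congr rfl fun t _ => by rw [eval_mul, eval_C, eval_pow, eval_X]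

theorem eval_pr [Fintype J] {q : ℕ} (P : Matrix (Fin p) J ℝ[X]) (x : Arr p J q) (s : ℝ) :
    (pr P (toPol x)).eval s = ∑ e : Fin p → J, (∏ i, (P i (e i)).eval s) *
      ∑ t : Fin (q + 1), x e t * s ^ (t : ℕ) := by
  unfold pr
  rw [eval_finset_sum]
  refine Finset.sum_congr rfl fun e _ => ?_
  rw [eval_mul, eval_prod]
  congr 1
  exact eval_pol (x e) s

theorem toPol_smul {q : ℕ} (r : ℝ) (x : Arr p J q) (e : Fin p → J) :
    toPol (r • x) e = C r * toPol x e := by
  show pol ((r • x) e) = C r * pol (x e)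
  unfold pol
  rw [Finset.mul_sum]
  refine Finset.sum_congr rfl fun t _ => ?_
  show C (r * x e t) * X ^ (t : ℕ) = _
  rw [C_mul, mul_assoc]

theorem pr_smul [Fintype J] {q : ℕ} (P : Matrix (Fin p) J ℝ[X]) (r : ℝ) (x : Arr p J q) :
    pr P (toPol (r • x)) = C r * pr P (toPol x) := by
  unfold pr
  rw [Finset.mul_sum]
  refine Finset.sum_congr rfl fun e _ => ?_
  rw [toPol_smul]
  ring

theorem rob [Fintype J] {q : ℕ} {φ : ℝ[X]} (hφ : φ ≠ 0) {K : Set (Arr p J q)} (hK : IsClosed K)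
    (hcone : ∀ (r : ℝ), ∀ x ∈ K, r • x ∈ K) {P₀ Q : Matrix (Fin p) J ℝ[X]}
    (hbase : ∀ x ∈ K, ∀ a : ℝ, pr P₀ (toPol x) = C a * φ → x = 0) :
    ∃ δ > 0, ∀ t : ℝ, |t| < δ → ∀ x ∈ K, ∀ a : ℝ, pr (seg P₀ Q t) (toPol x) = C a * φ → x = 0 := by
  classical
  let pe : ℝ → ℝ × Arr p J q × ℝ → ℝ := fun s z =>
    (∑ e : Fin p → J, (∏ i, ((P₀ i (e i)).eval s + z.1 * ((Q i (e i)).eval s - (P₀ i (e i)).eval s))) *
      ∑ t : Fin (q + 1), z.2.1 e t * s ^ (t : ℕ)) - z.2.2 * φ.eval s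
  have hpe : ∀ s z, pe s z = (pr (seg P₀ Q z.1) (toPol z.2.1)).eval s - z.2.2 * φ.eval s := by
    intro s z
    rw [eval_pr]
    show (∑ e : Fin p → J, _) - _ = _
    congr 1
    refine Finset.sum_congr rfl fun e _ => ?_
    congr 1
    refine Finset.prod_congr rfl fun i _ => ?_
    show _ = (P₀ i (e i) + C z.1 * (Q i (e i) - P₀ i (e i))).eval s
    rw [eval_add, eval_mul, eval_C, eval_sub]
  have hpc : ∀ s, Continuous (pe s) := by
    intro s
    refine Continuous.sub ?_ (by fun_prop)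
    refine continuous_finset_sum _ fun e _ => Continuous.mul ?_ ?_
    · exact continuous_finset_prod _ fun i _ => by fun_prop
    · refine continuous_finset_sum _ fun t _ => Continuous.mul ?_ continuous_const
      exact (continuous_apply t).comp ((continuous_apply e).comp
        (continuous_fst.comp continuous_snd))
  let S : Set (ℝ × Arr p J q × ℝ) :=
    (Set.Icc (-1 : ℝ) 1 ×ˢ Metric.sphere (0 : Arr p J q × ℝ) 1) ∩
      ((fun z => z.2.1) ⁻¹' K ∩ ⋂ s : ℝ, {z | pe s z = 0})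
  have hS : IsCompact S := by
    refine (isCompact_Icc.prod (isCompact_sphere _ _)).inter_right ?_
    refine (hK.preimage (continuous_fst.comp continuous_snd)).inter ?_
    exact isClosed_iInter fun s => isClosed_eq (hpc s) continuous_const
  have hseg0 : seg P₀ Q 0 = P₀ := by
    ext1 i j
    show P₀ i j + C 0 * (Q i j - P₀ i j) = P₀ i j
    rw [C_0, zero_mul, add_zero]
  have hzero : ∀ x : Arr p J q, x = 0 → ∀ P : Matrix (Fin p) J ℝ[X], pr P (toPol x) = 0 := by
    intro x hx P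
    have h1 : x = (0 : ℝ) • x := by rw [zero_smul, hx]
    rw [h1, pr_smul, C_0, zero_mul]
  have h0 : (0 : ℝ) ∉ Prod.fst '' S := by
    rintro ⟨⟨t, x, a⟩, ⟨⟨-, he⟩, hxK, hz⟩, ht⟩
    simp only at ht
    subst ht
    have h1 : pr P₀ (toPol x) = C a * φ := by
      refine Polynomial.funext fun s => ?_
      have h2 : pe s (0, x, a) = 0 := Set.mem_iInter.1 hz s
      rw [hpe] at h2
      have h3 : (pr (seg P₀ Q 0) (toPol x)).eval s - a * φ.eval s = 0 := h2
      rw [hseg0] at h3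
      rw [eval_mul, eval_C]
      linarith
    have h2 := hbase x hxK a h1
    have h3 : a = 0 := by
      rw [hzero x h2] at h1
      rcases mul_eq_zero.1 h1.symm with h4 | h4
      · exact C_eq_zero.1 h4
      · exact absurd h4 hφ
    rw [h2, h3] at he
    have h4 : ((0 : Arr p J q), (0 : ℝ)) = 0 := rfl
    rw [h4] at he
    simp at he
  have hcl : IsOpen (Prod.fst '' S)ᶜ := (hS.image continuous_fst).isClosed.isOpen_compl
  obtain ⟨δ, hδ, hball⟩ := Metric.isOpen_iff.1 hcl 0 h0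
  refine ⟨min δ 1, lt_min hδ one_pos, ?_⟩
  intro t ht x hx a hp
  by_contra hne
  let e : Arr p J q × ℝ := (x, a)
  have he : e ≠ 0 := fun he => hne (congrArg Prod.fst he)
  have hr : 0 < ‖e‖ := norm_pos_iff.2 he
  have hmem : (t, ‖e‖⁻¹ • e) ∈ S := by
    refine ⟨⟨?_, ?_⟩, hcone _ x hx, Set.mem_iInter.2 fun s => ?_⟩
    · have := abs_le.1 (ht.le.trans (min_le_right _ _))
      exact ⟨this.1, this.2⟩
    · rw [mem_sphere_zero_iff_norm, norm_smul, norm_inv, norm_norm, inv_mul_cancel₀ hr.ne']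
    · show pe s (t, ‖e‖⁻¹ • e) = 0
      rw [hpe]
      show (pr (seg P₀ Q t) (toPol (‖e‖⁻¹ • x))).eval s - (‖e‖⁻¹ * a) * φ.eval s = 0
      rw [pr_smul, hp, eval_mul, eval_mul, eval_C, eval_C]
      ring
  have h1 : t ∉ Prod.fst '' S := by
    apply hball
    rw [Metric.mem_ball, Real.dist_eq, sub_zero]
    exact lt_of_lt_of_le ht (min_le_left _ _)
  exact h1 ⟨_, hmem, rfl⟩

end Pool.H30.PD
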