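import Pool.Agent.H30.PD.Spec
import Pool.Agent.H30.PD.Rob

/-!
# [H30 PD ASM] Final assembly: from a special plant to the failure of generic pole placement

Definitions as in the hand-ins of MP_cc7c04_an. `not_assignable`: `K` is any closed cone of coefficient
arrays which contains the coordinates of all compensators of McMillan degree `q`; `P₀` is a plant with
row degrees at most `kap p n`, `φ` a polynomial of degree `n + q`, and the only `x` in `K` with
`pr P₀ x = a φ` is `0`. Then the property of the question fails.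
-/

set_option autoImplicit false

open Polynomial

namespace Pool.H30.PD

/-- assignable polynomials -/
def Assignable {m p : ℕ} (q : ℕ) (P₁ : Matrix (Fin p) (Fin p ⊕ Fin m) ℝ[X]) (φ : ℝ[X]) : Prop :=
  ∃ P₂ : Matrix (Fin m) (Fin p ⊕ Fin m) ℝ[X], IsSys q P₂ ∧
    (Matrix.fromRows P₁ P₂).det ≠ 0 ∧
      ∃ c : ℝ, c ≠ 0 ∧ (Matrix.fromRows P₁ P₂).det = C c * φ

/-- the coefficient space -/
def coeffSpace (m p n : ℕ) : Set (Matrix (Fin p) (Fin p ⊕ Fin m) ℝ[X]) :=
  {P | (∀ i j, (P i j).natDegree ≤ n) ∧ IsSys n P}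

/-- the value of a polynomial at the coefficient vector -/
noncomputable def evalAt {m p n : ℕ} (P : Matrix (Fin p) (Fin p ⊕ Fin m) ℝ[X])
    (f : MvPolynomial (Fin p × (Fin p ⊕ Fin m) × Fin (n + 1)) ℝ) : ℝ :=
  MvPolynomial.eval (fun v => (P v.1 v.2.1).coeff v.2.2) f

/-- Zariski open subsets -/
def zariskiOpen (m p n : ℕ) (F : Set (MvPolynomial (Fin p × (Fin p ⊕ Fin m) × Fin (n + 1)) ℝ)) :
    Set (Matrix (Fin p) (Fin p ⊕ Fin m) ℝ[X]) :=
  {P | P ∈ coeffSpace m p n ∧ ∃ f ∈ F, evalAt P f ≠ 0}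

/-- Zariski dense subsets -/
def ZariskiDense (m p n : ℕ) (U : Set (Matrix (Fin p) (Fin p ⊕ Fin m) ℝ[X])) : Prop :=
  ∀ g : MvPolynomial (Fin p × (Fin p ⊕ Fin m) × Fin (n + 1)) ℝ,
    (∀ P ∈ U, evalAt P g = 0) → ∀ P ∈ coeffSpace m p n, evalAt P g = 0

/-- the property of the question -/
def PoleAssignable (m p n q : ℕ) : Prop :=
  ∃ F : Set (MvPolynomial (Fin p × (Fin p ⊕ Fin m) × Fin (n + 1)) ℝ),
    ZariskiDense m p n (zariskiOpen m p n F) ∧
      ∀ P₁ ∈ zariskiOpen m p n F, ∀ φ : ℝ[X], φ.natDegree = n + q → Assignable q P₁ φ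

/-- the coefficients of the coordinates of a compensator -/
noncomputable def xc {m p : ℕ} (q : ℕ) (P₂ : Matrix (Fin m) (Fin p ⊕ Fin m) ℝ[X]) :
    Arr p (Fin p ⊕ Fin m) q := fun e t => (xx P₂ e).coeff t

theorem toPol_xc {m p q : ℕ} {P₂ : Matrix (Fin m) (Fin p ⊕ Fin m) ℝ[X]} (h : IsSys q P₂)
    (e : Fin p → Fin p ⊕ Fin m) : toPol (xc q P₂) e = xx P₂ e :=
  (eq_pol (xx_natDegree h.1 e)).symm

/-- evaluation of a polynomial with polynomial coefficients -/
private theorem eval_aeval {σ : Type} (t : ℝ) (g : σ → ℝ[X]) (f : MvPolynomial σ ℝ) :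
    (MvPolynomial.aeval g f).eval t = MvPolynomial.eval (fun v => (g v).eval t) f := by
  induction f using MvPolynomial.induction_on with
  | C a => simp
  | add p q hp hq => rw [map_add, map_add, eval_add, hp, hq]
  | mul_X p v hp => rw [map_mul, map_mul, eval_mul, hp, MvPolynomial.aeval_X, MvPolynomial.eval_X]

/-- the segment with the time as a variable: coefficients are polynomials in `t` -/
private noncomputable def lseg {p : ℕ} {J : Type} (U : Matrix (Fin p) (Fin p) ℝ[X])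
    (P₀ Q : Matrix (Fin p) J ℝ[X]) : Matrix (Fin p) J ℝ[X][X] :=
  U.map (mapRingHom C) * Matrix.of fun i j =>
    (P₀ i j).map C + C X * ((Q i j).map C - (P₀ i j).map C)

/-- specialisation of the time -/
private noncomputable def sp (t : ℝ) : ℝ[X][X] →+* ℝ[X] := mapRingHom (evalRingHom t)

private theorem sp_lift (t : ℝ) (f : ℝ[X]) : sp t (f.map C) = f := by
  unfold sp
  rw [coe_mapRingHom, Polynomial.map_map]
  have h1 : (evalRingHom t).comp (C : ℝ →+* ℝ[X]) = RingHom.id ℝ := by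
    ext a
    simp
  rw [h1, Polynomial.map_id]

private theorem sp_lseg {p : ℕ} {J : Type} (U : Matrix (Fin p) (Fin p) ℝ[X])
    (P₀ Q : Matrix (Fin p) J ℝ[X]) (t : ℝ) (i : Fin p) (j : J) :
    sp t (lseg U P₀ Q i j) = path U P₀ Q t i j := by
  unfold lseg path
  rw [Matrix.mul_apply, Matrix.mul_apply, map_sum]
  refine Finset.sum_congr rfl fun k _ => ?_
  rw [map_mul]
  have h1 : sp t (U.map (mapRingHom C) i k) = U i k := sp_lift t (U i k)
  have h2 : sp t ((P₀ k j).map C + C X * ((Q k j).map C - (P₀ k j).map C)) =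
      P₀ k j + C t * (Q k j - P₀ k j) := by
    rw [map_add, map_mul, map_sub, sp_lift, sp_lift]
    congr 2
    simp [sp]
  rw [h1]
  congr 1

private theorem sp_coeff (t : ℝ) (f : ℝ[X][X]) (k : ℕ) : (sp t f).coeff k = (f.coeff k).eval t := by
  simp [sp]

theorem not_assignable {m p n q : ℕ} (hp : 0 < p) {K : Set (Arr p (Fin p ⊕ Fin m) q)}
    (hK : IsClosed K) (hcone : ∀ (r : ℝ), ∀ x ∈ K, r • x ∈ K)
    (hKx : ∀ P₂ : Matrix (Fin m) (Fin p ⊕ Fin m) ℝ[X], IsSys q P₂ → xc q P₂ ∈ K)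
    {φ : ℝ[X]} (hφ0 : φ ≠ 0) (hφ : φ.natDegree = n + q)
    {P₀ : Matrix (Fin p) (Fin p ⊕ Fin m) ℝ[X]} (hP₀ : RowLe P₀ (kap p n))
    (hspec : ∀ x ∈ K, ∀ a : ℝ, pr P₀ (toPol x) = C a * φ → x = 0) :
    ¬ PoleAssignable m p n q := by
  classical
  rintro ⟨F, hdense, hprop⟩
  obtain ⟨h, ⟨P₁, hP₁n, hP₁, hne⟩, hgen⟩ :=
    exists_generic (p := p) (J := Fin p ⊕ Fin m) hp n (c := Sum.inl) Sum.inl_injective
  obtain ⟨P, hPF, hPh⟩ : ∃ P ∈ zariskiOpen m p n F, evalAt P h ≠ 0 := by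
    by_contra hcon
    push Not at hcon
    exact hne (hdense h hcon P₁ ⟨hP₁n, hP₁⟩)
  obtain ⟨hPc, f, hfF, hf⟩ := hPF
  obtain ⟨U, P', hPU, ⟨a, ha, hU⟩, hP', hUd⟩ := hgen P hPc.1 hPc.2 hPh
  obtain ⟨δ, hδ, hrob⟩ := rob (Q := P') hφ0 hK hcone hspec
  have hpath1 : path U P₀ P' 1 = P := by rw [path_one, hPU]
  obtain ⟨e₀, he₀, he₀n⟩ := hPc.2.2
  -- the polynomial in `t` whose roots have to be avoided
  let g : Fin p × (Fin p ⊕ Fin m) × Fin (n + 1) → ℝ[X] := fun v =>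
    (lseg U P₀ P' v.1 v.2.1).coeff v.2.2
  have hF1 : ∀ t, (MvPolynomial.aeval g f).eval t = evalAt (path U P₀ P' t) f := by
    intro t
    rw [eval_aeval]
    unfold evalAt
    congr 2
    funext v
    show ((lseg U P₀ P' v.1 v.2.1).coeff v.2.2).eval t = _
    rw [← sp_coeff, sp_lseg]
  let D : ℝ[X] := ((lseg U P₀ P').submatrix id e₀).det.coeff n
  have hD : ∀ t, D.eval t = ((path U P₀ P' t).submatrix id e₀).det.coeff n := by
    intro t
    show (((lseg U P₀ P').submatrix id e₀).det.coeff n).eval t = _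
    rw [← sp_coeff, RingHom.map_det]
    congr 2
    ext1 i j
    exact sp_lseg U P₀ P' t i (e₀ j)
  let Z : ℝ[X] := MvPolynomial.aeval g f * D
  have hZ0 : Z ≠ 0 := by
    intro h0
    have h1 : Z.eval 1 = 0 := by rw [h0, eval_zero]
    have h2 : Z.eval 1 = evalAt P f * (P.submatrix id e₀).det.coeff n := by
      show (MvPolynomial.aeval g f * D).eval 1 = _
      rw [eval_mul, hF1, hD, hpath1]
    rw [h2] at h1
    rcases mul_eq_zero.1 h1 with h3 | h3
    · exact hf h3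
    · rw [← he₀n] at h3
      exact leadingCoeff_ne_zero.2 he₀ h3
  have hfin : (Z.roots.toFinset : Set ℝ).Finite := Finset.finite_toSet _
  obtain ⟨t, ⟨ht0, htδ⟩, hroot⟩ := ((Set.Ioo_infinite hδ).diff hfin).nonempty
  have hZt : Z.eval t ≠ 0 := by
    intro h0
    apply hroot
    rw [Finset.mem_coe, Multiset.mem_toFinset, mem_roots hZ0]
    exact h0
  have hZt' : evalAt (path U P₀ P' t) f * ((path U P₀ P' t).submatrix id e₀).det.coeff n ≠ 0 := by
    rw [← hF1, ← hD, ← eval_mul]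
    exact hZt
  obtain ⟨hm1, hm2⟩ := path_mem hp hU hUd hP₀ hP' t
  have hPt : path U P₀ P' t ∈ zariskiOpen m p n F := by
    refine ⟨⟨hm1, hm2, e₀, ?_, ?_⟩, f, hfF, left_ne_zero_of_mul hZt'⟩
    · intro h0
      apply right_ne_zero_of_mul hZt'
      rw [h0, coeff_zero]
    · exact le_antisymm (hm2 e₀) (le_natDegree_of_ne_zero (right_ne_zero_of_mul hZt'))
  obtain ⟨P₂, hP₂, hne2, c, hc, hdet⟩ := hprop _ hPt φ hφ
  have hseg : (Matrix.fromRows (path U P₀ P' t) P₂).det =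
      C a * (Matrix.fromRows (seg P₀ P' t) P₂).det := by
    unfold path
    rw [det_fromRows_mul, hU]
    rfl
  have hpr : pr (seg P₀ P' t) (toPol (xc q P₂)) = (Matrix.fromRows (seg P₀ P' t) P₂).det := by
    rw [det_fromRows_pr]
    unfold pr
    exact Finset.sum_congr rfl fun e _ => by rw [toPol_xc hP₂]
  have hval : (Matrix.fromRows (seg P₀ P' t) P₂).det = C (a⁻¹ * c) * φ := by
    rw [hseg] at hdet
    calc (Matrix.fromRows (seg P₀ P' t) P₂).det
        = C a⁻¹ * (C a * (Matrix.fromRows (seg P₀ P' t) P₂).det) := by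
          rw [← mul_assoc, ← C_mul, inv_mul_cancel₀ ha, C_1, one_mul]
      _ = C (a⁻¹ * c) * φ := by rw [hdet, ← mul_assoc, ← C_mul]
  have habs : |t| < δ := by
    rw [abs_of_pos ht0]
    exact htδ
  have hx0 : xc q P₂ = 0 := hrob t habs (xc q P₂) (hKx P₂ hP₂) (a⁻¹ * c) (by rw [hpr, hval])
  apply hne2
  rw [hseg, ← hpr, hx0]
  have h1 : (0 : Arr p (Fin p ⊕ Fin m) q) = (0 : ℝ) • 0 := by rw [smul_zero]
  rw [h1, pr_smul, C_0, zero_mul, mul_zero]

end Pool.H30.PD
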