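import Pool.Agent.H30.PD.SumDeg

/-!
# [H30 PD BAL] The row degrees are balanced for generic `P`
-/

set_option autoImplicit false

open Polynomial

namespace Pool.H30.PD

variable {p : ℕ} {J : Type}

/-- The condition on the columns `c`: a polynomial combination of the rows, with coefficients of degree
at most `p n`, which has degree less than `kap p n l` in the column `c l`, is trivial. -/
def ColInj (n : ℕ) (c : Fin p → J) (P : Matrix (Fin p) J ℝ[X]) : Prop :=
  ∀ u : Fin p → ℝ[X], (∀ i, (u i).natDegree ≤ p * n) →
    (∀ l k, kap p n l ≤ k → (∑ i, u i * P i (c l)).coeff k = 0) → u = 0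

theorem adj_natDegree {n : ℕ} (A : Matrix (Fin p) (Fin p) ℝ[X])
    (hA : ∀ i j, (A i j).natDegree ≤ n) (i j : Fin p) :
    (A.adjugate i j).natDegree + n ≤ p * n := by
  classical
  rw [Matrix.adjugate_apply]
  let d : Fin p → ℕ := Function.update (fun _ => n) j 0
  have h1 : RowLe (A.updateRow j (Pi.single i 1)) d := by
    intro k l
    by_cases hk : k = j
    · subst hk
      rw [Matrix.updateRow_self]
      show _ ≤ Function.update (fun _ => n) k 0 k
      rw [Function.update_self]
      by_cases hl : l = i
      · rw [hl, Pi.single_eq_same, natDegree_one]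
      · rw [Pi.single_eq_of_ne hl, natDegree_zero]
    · rw [Matrix.updateRow_ne hk]
      show _ ≤ Function.update (fun _ => n) j 0 k
      rw [Function.update_of_ne hk]
      exact hA k l
  have h2 := (det_lead _ d h1).1
  have h3 : ∑ k, d k + n = p * n := by
    have h4 : ∑ k, Function.update (fun _ : Fin p => n) j n k = ∑ k, d k + n := by
      rw [Finset.sum_update_of_mem (Finset.mem_univ j)]
      show _ = ∑ k, Function.update (fun _ => n) j 0 k + n
      rw [Finset.sum_update_of_mem (Finset.mem_univ j)]
      ring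
    rw [← h4, Function.update_eq_self_iff.2 rfl, Finset.sum_const, Finset.card_univ,
      Fintype.card_fin, smul_eq_mul]
  omega

/-- the degrees of the multipliers -/
theorem mult_natDegree {n : ℕ} {P : Matrix (Fin p) J ℝ[X]} (hPn : ∀ i j, (P i j).natDegree ≤ n)
    (c : Fin p → J) (hdet : (P.submatrix id c).det ≠ 0) (V : Matrix (Fin p) (Fin p) ℝ[X])
    (i : Fin p) (hV : ∀ l, ((V * P) i (c l)).natDegree ≤ n) (k : Fin p) :
    (V i k).natDegree ≤ p * n := by
  set A := P.submatrix id c with hA
  have h1 : ∀ l, (V * A) i l = (V * P) i (c l) := fun l => rfl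
  have h2 : V i k * A.det = ∑ l, (V * P) i (c l) * A.adjugate l k := by
    have h3 : V * A * A.adjugate = A.det • V := by
      rw [Matrix.mul_assoc, Matrix.mul_adjugate, Matrix.mul_smul, Matrix.mul_one]
    have h4 := congrFun (congrFun h3 i) k
    rw [Matrix.mul_apply, Matrix.smul_apply, smul_eq_mul] at h4
    rw [mul_comm, ← h4]
    exact Finset.sum_congr rfl fun l _ => by rw [h1]
  by_cases h0 : V i k = 0
  · rw [h0, natDegree_zero]
    exact Nat.zero_le _
  · have h3 : (V i k * A.det).natDegree = (V i k).natDegree + A.det.natDegree :=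
      natDegree_mul h0 hdet
    have h4 : (V i k * A.det).natDegree ≤ p * n := by
      rw [h2]
      refine natDegree_sum_le_of_forall_le _ _ fun l _ => natDegree_mul_le.trans ?_
      have h5 := adj_natDegree A (fun i j => hPn i (c j)) l k
      have h6 := hV l
      omega
    omega

theorem bal_low {n : ℕ} {P : Matrix (Fin p) J ℝ[X]} (c : Fin p → J)
    (hinj : ColInj n c P) {V : Matrix (Fin p) (Fin p) ℝ[X]} {a : ℝ} (ha : a ≠ 0)
    (hV : V.det = C a) {d : Fin p → ℕ} (hd : RowLe (V * P) d)
    (hVn : ∀ i k, (V i k).natDegree ≤ p * n) (k : Fin p) : n / p ≤ d k := by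
  by_contra hcon
  rw [not_le] at hcon
  have h1 : V k = 0 := by
    refine hinj (V k) (hVn k) fun l m hm => ?_
    have h2 : ∑ i, V k i * P i (c l) = (V * P) k (c l) := rfl
    rw [h2]
    refine coeff_eq_zero_of_natDegree_lt (lt_of_le_of_lt (hd k (c l)) (lt_of_lt_of_le hcon ?_))
    refine le_trans ?_ hm
    unfold kap
    omega
  have h2 : V.det = 0 := Matrix.det_eq_zero_of_row_eq_zero k fun j => congrFun h1 j
  rw [hV] at h2
  exact ha (C_eq_zero.1 h2)

end Pool.H30.PD
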