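import Pool.Agent.H30.PD.Bal

/-!
# [H30 PD BALHI] The row degrees are at most `n / p + 1`
-/

set_option autoImplicit false

open Polynomial

namespace Pool.H30.PD

variable {p : ℕ} {J : Type}

theorem card_kap (hp : 0 < p) (n : ℕ) :
    (Finset.univ.filter fun l : Fin p => ¬ (l : ℕ) < n % p).card = p - n % p := by
  have h1 := Finset.card_filter_add_card_filter_not (s := (Finset.univ : Finset (Fin p)))
    (fun l : Fin p => (l : ℕ) < n % p)
  have h3 : n % p ≤ p := (Nat.mod_lt n hp).le
  rw [Fin.card_filter_val_lt, Finset.card_univ, Fintype.card_fin] at h1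
  omega

theorem bal_high (hp : 0 < p) {n : ℕ} {P : Matrix (Fin p) J ℝ[X]} (c : Fin p → J)
    (hinj : ColInj n c P) {V : Matrix (Fin p) (Fin p) ℝ[X]} {a : ℝ} (ha : a ≠ 0)
    (hV : V.det = C a) {d : Fin p → ℕ} (hd : RowLe (V * P) d)
    (hVn : ∀ i k, (V i k).natDegree ≤ p * n) (hsum : ∑ i, d i = n)
    (hlow : ∀ k, n / p ≤ d k) (k₀ : Fin p) : d k₀ ≤ n / p + 1 := by
  classical
  by_contra hcon
  rw [not_le] at hcon
  set f := n / p with hf
  let S : Finset (Fin p) := Finset.univ.filter fun k => d k = f
  let R : Finset (Fin p) := Finset.univ.filter fun l : Fin p => ¬ (l : ℕ) < n % p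
  have hRc : R.card = p - n % p := card_kap hp n
  have hn : p * f + n % p = n := Nat.div_add_mod n p
  -- many rows have degree `f`
  have hSc : R.card < S.card := by
    let S' : Finset (Fin p) := Finset.univ.filter fun k => ¬ d k = f
    have h1 : S.card + S'.card = p := by
      have := Finset.card_filter_add_card_filter_not (s := (Finset.univ : Finset (Fin p)))
        (fun k : Fin p => d k = f)
      rw [Finset.card_univ, Fintype.card_fin] at this
      exact this
    have hk0 : k₀ ∈ S' := Finset.mem_filter.2 ⟨Finset.mem_univ _, by omega⟩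
    have h2 : ∑ i, d i = ∑ i ∈ S, d i + ∑ i ∈ S', d i :=
      (Finset.sum_filter_add_sum_filter_not Finset.univ (fun k => d k = f) d).symm
    have h3 : ∑ i ∈ S, d i = S.card * f := by
      rw [Finset.sum_congr rfl fun i hi => (Finset.mem_filter.1 hi).2, Finset.sum_const,
        smul_eq_mul]
    have h4 : S'.card * (f + 1) < ∑ i ∈ S', d i := by
      have h5 : ∑ _i ∈ S', (f + 1) < ∑ i ∈ S', d i := by
        refine Finset.sum_lt_sum (fun i hi => ?_) ⟨k₀, hk0, by omega⟩
        have h6 := hlow i
        have h7 := (Finset.mem_filter.1 hi).2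
        omega
      rw [Finset.sum_const, smul_eq_mul] at h5
      exact h5
    have h5 : n % p < p := Nat.mod_lt n hp
    have h6 : p * f = S.card * f + S'.card * f := by
      rw [← add_mul, h1]
    have h7 : S'.card * (f + 1) = S'.card * f + S'.card := by ring
    omega
  -- a combination of the rows of degree `f`
  let T : (S → ℝ) →ₗ[ℝ] (R → ℝ) :=
    { toFun := fun b l => ∑ k : S, b k * ((V * P) k (c l)).coeff f
      map_add' := by
        intro b b'
        funext l
        rw [Pi.add_apply, ← Finset.sum_add_distrib]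
        exact Finset.sum_congr rfl fun k _ => by rw [Pi.add_apply, add_mul]
      map_smul' := by
        intro r b
        funext l
        rw [Pi.smul_apply, RingHom.id_apply, smul_eq_mul, Finset.mul_sum]
        exact Finset.sum_congr rfl fun k _ => by rw [Pi.smul_apply, smul_eq_mul, mul_assoc] }
  have hker : LinearMap.ker T ≠ ⊥ := by
    apply LinearMap.ker_ne_bot_of_finrank_lt
    rw [Module.finrank_fintype_fun_eq_card, Module.finrank_fintype_fun_eq_card,
      Fintype.card_coe, Fintype.card_coe]
    exact hSc
  obtain ⟨b, hb, hb0⟩ := (Submodule.ne_bot_iff _).1 hker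
  rw [LinearMap.mem_ker] at hb
  let b' : Fin p → ℝ := fun k => if h : k ∈ S then b ⟨k, h⟩ else 0
  have hsumS : ∀ g : Fin p → ℝ[X], ∑ k, C (b' k) * g k = ∑ k : S, C (b k) * g k := by
    intro g
    have h1 : ∑ k : S, C (b k) * g k = ∑ k : S, C (b' k) * g k := by
      refine Finset.sum_congr rfl fun k _ => ?_
      have h2 : b' k = b k := dif_pos k.2
      rw [h2]
    rw [h1, Finset.sum_coe_sort S (fun k => C (b' k) * g k)]
    symm
    refine Finset.sum_subset (Finset.subset_univ S) fun k _ hk => ?_
    have h2 : b' k = 0 := dif_neg hk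
    rw [h2, C_0, zero_mul]
  let u : Fin p → ℝ[X] := fun i => ∑ k, C (b' k) * V k i
  have huP : ∀ l, ∑ i, u i * P i (c l) = ∑ k : S, C (b k) * (V * P) k (c l) := by
    intro l
    rw [← hsumS fun k => (V * P) k (c l)]
    have h1 : ∀ i, u i * P i (c l) = ∑ k, C (b' k) * (V k i * P i (c l)) := by
      intro i
      show (∑ k, C (b' k) * V k i) * P i (c l) = _
      rw [Finset.sum_mul]
      exact Finset.sum_congr rfl fun k _ => by ring
    simp_rw [h1]
    rw [Finset.sum_comm]
    refine Finset.sum_congr rfl fun k _ => ?_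
    rw [← Finset.mul_sum]
    rfl
  have hu0 : u = 0 := by
    refine hinj u (fun i => ?_) fun l m hm => ?_
    · refine natDegree_sum_le_of_forall_le _ _ fun k _ => ?_
      exact (natDegree_C_mul_le _ _).trans (hVn k i)
    · rw [huP, finset_sum_coeff]
      have hm1 : f ≤ m := by
        refine le_trans ?_ hm
        unfold kap
        omega
      rcases Nat.lt_or_ge f m with h1 | h1
      · refine Finset.sum_eq_zero fun k _ => ?_
        rw [coeff_C_mul, coeff_eq_zero_of_natDegree_lt, mul_zero]
        refine lt_of_le_of_lt (hd k (c l)) ?_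
        rw [(Finset.mem_filter.1 k.2).2]
        exact h1
      · have h2 : m = f := le_antisymm h1 hm1
        rw [h2] at hm ⊢
        have hl : l ∈ R := by
          refine Finset.mem_filter.2 ⟨Finset.mem_univ _, fun h3 => ?_⟩
          unfold kap at hm
          rw [if_pos h3] at hm
          omega
        have h4 := congrFun hb ⟨l, hl⟩
        have h5 : T b ⟨l, hl⟩ = ∑ k : S, b k * ((V * P) k (c l)).coeff f := rfl
        rw [h5, Pi.zero_apply] at h4
        rw [← h4]
        exact Finset.sum_congr rfl fun k _ => coeff_C_mul _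
  have hdet : V.det ≠ 0 := by
    rw [hV]
    exact C_ne_zero.2 ha
  have h1 : (fun k => C (b' k)) = (0 : Fin p → ℝ[X]) := by
    refine Matrix.eq_zero_of_vecMul_eq_zero hdet ?_
    exact hu0
  apply hb0
  funext k
  have h2 := congrFun h1 k
  have h3 : b' k = b k := dif_pos k.2
  rw [Pi.zero_apply, C_eq_zero, h3] at h2
  exact h2

end Pool.H30.PD
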