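import Mathlib

/-!
# H30/PD/Basic: polynomial matrices with real coefficients, row degrees (MP_cc7c04_an)

Chapter (4) of the theorem of helper45: almost every `p × J` polynomial matrix `P` with maximal minors
of degree at most `n` is of the form `P = U P'` with `U` unimodular and `P'` with balanced row degrees, and
then `U ((1 - t) P₀ + t P')` is a path in the coefficient space for every `P₀` with the same row degrees.
-/

set_option autoImplicit false

open Polynomial

namespace Pool.H30.PD

variable {p : ℕ} {J : Type}

/-- The entries of the row `i` have degree at most `d i`. -/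
def RowLe (P : Matrix (Fin p) J ℝ[X]) (d : Fin p → ℕ) : Prop := ∀ i j, (P i j).natDegree ≤ d i

/-- The matrix of the coefficients of degree `d i` in the row `i`. -/
def lead (P : Matrix (Fin p) J ℝ[X]) (d : Fin p → ℕ) : Matrix (Fin p) J ℝ :=
  Matrix.of fun i j => (P i j).coeff (d i)

/-- Full row rank and McMillan degree `n` (as in the hand-ins). -/
def IsSys (n : ℕ) (P : Matrix (Fin p) J ℝ[X]) : Prop :=
  (∀ e : Fin p → J, (P.submatrix id e).det.natDegree ≤ n) ∧
    ∃ e : Fin p → J, (P.submatrix id e).det ≠ 0 ∧ (P.submatrix id e).det.natDegree = n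

/-- The balanced degrees with sum `n`. -/
def kap (p n : ℕ) (i : Fin p) : ℕ := n / p + if (i : ℕ) < n % p then 1 else 0

theorem sum_kap (hp : 0 < p) (n : ℕ) : ∑ i : Fin p, kap p n i = n := by
  unfold kap
  rw [Finset.sum_add_distrib, Finset.sum_const, Finset.card_univ, Fintype.card_fin, smul_eq_mul]
  have h1 : (∑ i : Fin p, if (i : ℕ) < n % p then 1 else 0) = n % p := by
    rw [Finset.sum_boole]
    have h2 : (Finset.univ.filter fun i : Fin p => (i : ℕ) < n % p).card = n % p := by
      have h3 : n % p ≤ p := (Nat.mod_lt n hp).le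
      rw [Fin.card_filter_val_lt]
      omega
    rw [h2]
    rfl
  rw [h1]
  exact Nat.div_add_mod n p

theorem kap_le (hp : 0 < p) (n : ℕ) (i : Fin p) : kap p n i ≤ n :=
  (Finset.single_le_sum (f := kap p n) (fun i _ => Nat.zero_le _) (Finset.mem_univ i)).trans
    (sum_kap hp n).le

end Pool.H30.PD
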