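import Pool.Agent.H30.PD.BalHi

/-!
# [H30 PD DEC] Decomposition `P = U P'` with balanced `P'`
-/

set_option autoImplicit false

open Polynomial

namespace Pool.H30.PD

variable {p : ℕ} {J : Type}

/-- a permutation which makes the degrees equal to `kap` -/
theorem exists_perm (hp : 0 < p) {n : ℕ} {d : Fin p → ℕ} (hsum : ∑ i, d i = n)
    (h1 : ∀ k, n / p ≤ d k) (h2 : ∀ k, d k ≤ n / p + 1) :
    ∃ σ : Equiv.Perm (Fin p), ∀ i, d (σ i) = kap p n i := by
  classical
  have hn : p * (n / p) + n % p = n := Nat.div_add_mod n p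
  have hcard : (Finset.univ.filter fun k : Fin p => d k = n / p + 1).card = n % p := by
    have h3 : ∀ k, d k = n / p + if d k = n / p + 1 then 1 else 0 := by
      intro k
      have := h1 k
      have := h2 k
      split_ifs with h <;> omega
    have h4 : ∑ k, d k = ∑ k : Fin p, (n / p + if d k = n / p + 1 then 1 else 0) :=
      Finset.sum_congr rfl fun k _ => h3 k
    rw [Finset.sum_add_distrib, Finset.sum_const, Finset.card_univ, Fintype.card_fin, smul_eq_mul,
      Finset.sum_boole, hsum] at h4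
    have h5 : (((Finset.univ.filter fun k : Fin p => d k = n / p + 1).card : ℕ) : ℕ) =
      (Finset.univ.filter fun k : Fin p => d k = n / p + 1).card := rfl
    simp only [Nat.cast_id] at h4
    omega
  have hcard' : (Finset.univ.filter fun k : Fin p => (k : ℕ) < n % p).card = n % p := by
    have h3 : n % p ≤ p := (Nat.mod_lt n hp).le
    rw [Fin.card_filter_val_lt]
    omega
  have e1 : Fintype.card {k : Fin p // (k : ℕ) < n % p} =
      Fintype.card {k : Fin p // d k = n / p + 1} := by
    rw [Fintype.card_subtype, Fintype.card_subtype, hcard, hcard']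
  have e2 : Fintype.card {k : Fin p // ¬ (k : ℕ) < n % p} =
      Fintype.card {k : Fin p // ¬ d k = n / p + 1} := by
    rw [Fintype.card_subtype_compl, Fintype.card_subtype_compl, e1]
  let σ : Equiv.Perm (Fin p) := Equiv.subtypeCongr (Fintype.equivOfCardEq e1)
    (Fintype.equivOfCardEq e2)
  refine ⟨σ, fun i => ?_⟩
  by_cases hi : (i : ℕ) < n % p
  · have h3 : d (σ i) = n / p + 1 := by
      have h4 : σ i = (Fintype.equivOfCardEq e1 ⟨i, hi⟩ : {k : Fin p // d k = n / p + 1}) := by
        show (Equiv.sumCompl fun k : Fin p => d k = n / p + 1)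
          (Sum.map (Fintype.equivOfCardEq e1) (Fintype.equivOfCardEq e2)
            ((Equiv.sumCompl fun k : Fin p => (k : ℕ) < n % p).symm i)) = _
        rw [Equiv.sumCompl_symm_apply_of_pos (p := fun k : Fin p => (k : ℕ) < n % p) hi]
        rfl
      rw [h4]
      exact (Fintype.equivOfCardEq e1 ⟨i, hi⟩).2
    rw [h3]
    unfold kap
    rw [if_pos hi]
  · have h3 : ¬ d (σ i) = n / p + 1 := by
      have h4 : σ i = (Fintype.equivOfCardEq e2 ⟨i, hi⟩ : {k : Fin p // ¬ d k = n / p + 1}) := by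
        show (Equiv.sumCompl fun k : Fin p => d k = n / p + 1)
          (Sum.map (Fintype.equivOfCardEq e1) (Fintype.equivOfCardEq e2)
            ((Equiv.sumCompl fun k : Fin p => (k : ℕ) < n % p).symm i)) = _
        rw [Equiv.sumCompl_symm_apply_of_neg (p := fun k : Fin p => (k : ℕ) < n % p) hi]
        rfl
      rw [h4]
      exact (Fintype.equivOfCardEq e2 ⟨i, hi⟩).2
    unfold kap
    rw [if_neg hi]
    have := h1 (σ i)
    have := h2 (σ i)
    omega

theorem decomp (hp : 0 < p) [Fintype J] {n : ℕ} {P : Matrix (Fin p) J ℝ[X]}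
    (hPn : ∀ i j, (P i j).natDegree ≤ n) (hP : IsSys n P) (c : Fin p → J)
    (hdet : (P.submatrix id c).det ≠ 0) (hinj : ColInj n c P) :
    ∃ (U : Matrix (Fin p) (Fin p) ℝ[X]) (P' : Matrix (Fin p) J ℝ[X]), P = U * P' ∧
      (∃ a : ℝ, a ≠ 0 ∧ U.det = C a) ∧ RowLe P' (kap p n) ∧
      ∀ i j, U i j = 0 ∨ (U i j).natDegree + kap p n j ≤ n := by
  classical
  obtain ⟨V, d, ⟨a, ha, hV⟩, hd, hr⟩ := exists_reduced P (fun _ => n) hPn c hdet
  have hsum : ∑ i, d i = n := sum_eq hP ha hV hd hr
  have hdn : ∀ i, d i ≤ n := fun i =>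
    (Finset.single_le_sum (f := d) (fun i _ => Nat.zero_le _) (Finset.mem_univ i)).trans hsum.le
  have hVn : ∀ i k, (V i k).natDegree ≤ p * n := fun i k =>
    mult_natDegree hPn c hdet V i (fun l => (hd i (c l)).trans (hdn i)) k
  have hlow := bal_low c hinj ha hV hd hVn
  have hhigh := bal_high hp c hinj ha hV hd hVn hsum hlow
  obtain ⟨σ, hσ⟩ := exists_perm hp hsum hlow hhigh
  let W : Matrix (Fin p) (Fin p) ℝ[X] := V.submatrix σ id
  have hW : ∃ b : ℝ, b ≠ 0 ∧ W.det = C b := by
    have h1 : W.det = Equiv.Perm.sign σ * V.det := Matrix.det_permute σ V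
    rcases Int.units_eq_one_or (Equiv.Perm.sign σ) with hs | hs
    · refine ⟨a, ha, ?_⟩
      rw [h1, hs, hV]
      simp
    · refine ⟨-a, neg_ne_zero.2 ha, ?_⟩
      rw [h1, hs, hV]
      simp
  obtain ⟨b, hb, hWb⟩ := hW
  have hWP : ∀ i j, (W * P) i j = (V * P) (σ i) j := fun i j => rfl
  have hle : RowLe (W * P) (kap p n) := by
    intro i j
    rw [hWP, ← hσ]
    exact hd (σ i) j
  have hred : RowRed (W * P) (kap p n) := by
    intro x hx
    have h1 : (fun k => x (σ.symm k)) = (0 : Fin p → ℝ) := by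
      apply hr
      intro j
      rw [← Equiv.sum_comp σ, ← hx j]
      refine Finset.sum_congr rfl fun i _ => ?_
      rw [hWP, σ.symm_apply_apply, hσ]
    funext i
    have h2 := congrFun h1 (σ i)
    rw [σ.symm_apply_apply] at h2
    exact h2
  let U : Matrix (Fin p) (Fin p) ℝ[X] := (C b⁻¹ : ℝ[X]) • W.adjugate
  have hUW : U * W = 1 := by
    show ((C b⁻¹ : ℝ[X]) • W.adjugate) * W = 1
    rw [Matrix.smul_mul, Matrix.adjugate_mul, hWb, smul_smul, ← C_mul, inv_mul_cancel₀ hb, C_1,
      one_smul]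
  have hUP : U * (W * P) = P := by
    rw [← Matrix.mul_assoc, hUW, Matrix.one_mul]
  refine ⟨U, W * P, hUP.symm, ⟨b⁻¹, inv_ne_zero hb, ?_⟩, hle, ?_⟩
  · have h1 : U.det * C b = 1 := by
      rw [← hWb, ← Matrix.det_mul, hUW, Matrix.det_one]
    calc U.det = U.det * C b * C b⁻¹ := by
          rw [mul_assoc, ← C_mul, mul_inv_cancel₀ hb, C_1, mul_one]
      _ = C b⁻¹ := by rw [h1, one_mul]
  · intro i j
    refine pred_degree hle hred (U i) n (fun l => ?_) j
    have h1 : ∑ k, U i k * (W * P) k l = P i l := by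
      have h2 := congrFun (congrFun hUP i) l
      rw [Matrix.mul_apply] at h2
      exact h2
    rw [h1]
    exact hPn i l

end Pool.H30.PD
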