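import Pool.Agent.H30.PD.Bal

/-!
# [H30 PD GEN] The generic matrix, determinants and multiplication matrices as polynomials
-/

set_option autoImplicit false

open Polynomial

namespace Pool.H30.PD

variable {p : ℕ} {J : Type}

/-- the coefficient vector -/
def cf (n : ℕ) (P : Matrix (Fin p) J ℝ[X]) : Fin p × J × Fin (n + 1) → ℝ :=
  fun v => (P v.1 v.2.1).coeff v.2.2

/-- the generic matrix -/
noncomputable def gen (p : ℕ) (J : Type) (n : ℕ) :
    Matrix (Fin p) J (MvPolynomial (Fin p × J × Fin (n + 1)) ℝ)[X] :=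
  Matrix.of fun i j => ∑ k : Fin (n + 1), C (MvPolynomial.X (i, j, k)) * X ^ (k : ℕ)

theorem map_gen (n : ℕ) {P : Matrix (Fin p) J ℝ[X]} (hP : ∀ i j, (P i j).natDegree ≤ n)
    (i : Fin p) (j : J) : (gen p J n i j).map (MvPolynomial.eval (cf n P)) = P i j := by
  have h1 : gen p J n i j = ∑ k : Fin (n + 1), C (MvPolynomial.X (i, j, k)) * X ^ (k : ℕ) := rfl
  rw [h1, Polynomial.map_sum]
  have h2 : ∀ k : Fin (n + 1), (C (MvPolynomial.X (i, j, k)) * X ^ (k : ℕ) :
      (MvPolynomial (Fin p × J × Fin (n + 1)) ℝ)[X]).map (MvPolynomial.eval (cf n P)) =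
      C ((P i j).coeff k) * X ^ (k : ℕ) := by
    intro k
    rw [Polynomial.map_mul, Polynomial.map_pow, Polynomial.map_C, Polynomial.map_X,
      MvPolynomial.eval_X]
    rfl
  simp_rw [h2]
  rw [Fin.sum_univ_eq_sum_range (fun k => C ((P i j).coeff k) * X ^ k) (n + 1)]
  exact (Polynomial.as_sum_range_C_mul_X_pow' (P i j) (Nat.lt_succ_of_le (hP i j))).symm

/-- the coefficient of the determinant -/
theorem eval_det (n m : ℕ) (c : Fin p → J) {P : Matrix (Fin p) J ℝ[X]}
    (hP : ∀ i j, (P i j).natDegree ≤ n) :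
    MvPolynomial.eval (cf n P) (((gen p J n).submatrix id c).det.coeff m) =
      (P.submatrix id c).det.coeff m := by
  rw [← Polynomial.coeff_map, ← Polynomial.coe_mapRingHom, RingHom.map_det]
  congr 2
  ext1 i j
  show (gen p J n i (c j)).map (MvPolynomial.eval (cf n P)) = P i (c j)
  exact map_gen n hP i (c j)

/-- the matrix of multiplication, entries -/
noncomputable def mm (n : ℕ) (c : Fin p → J) (P : Matrix (Fin p) J ℝ[X]) :
    Matrix (Fin p × Fin (p * n + n + 1)) (Fin p × Fin (p * n + 1)) ℝ :=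
  Matrix.of fun a b => if kap p n a.1 ≤ (a.2 : ℕ) then (X ^ (b.2 : ℕ) * P b.1 (c a.1)).coeff a.2
    else 0

/-- the generic matrix of multiplication -/
noncomputable def gmm (n : ℕ) (c : Fin p → J) :
    Matrix (Fin p × Fin (p * n + n + 1)) (Fin p × Fin (p * n + 1))
      (MvPolynomial (Fin p × J × Fin (n + 1)) ℝ) :=
  Matrix.of fun a b => if kap p n a.1 ≤ (a.2 : ℕ) then
    (X ^ (b.2 : ℕ) * gen p J n b.1 (c a.1)).coeff a.2 else 0

theorem eval_gmm (n : ℕ) (c : Fin p → J) {P : Matrix (Fin p) J ℝ[X]}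
    (hP : ∀ i j, (P i j).natDegree ≤ n) (a : Fin p × Fin (p * n + n + 1))
    (b : Fin p × Fin (p * n + 1)) :
    MvPolynomial.eval (cf n P) (gmm n c a b) = mm n c P a b := by
  show MvPolynomial.eval (cf n P) (if kap p n a.1 ≤ (a.2 : ℕ) then
    (X ^ (b.2 : ℕ) * gen p J n b.1 (c a.1)).coeff a.2 else 0) =
    if kap p n a.1 ≤ (a.2 : ℕ) then (X ^ (b.2 : ℕ) * P b.1 (c a.1)).coeff a.2 else 0
  split_ifs with h
  · rw [← Polynomial.coeff_map, Polynomial.map_mul, Polynomial.map_pow, Polynomial.map_X,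
      map_gen n hP]
  · exact map_zero _

/-- the polynomial with the given coefficients -/
noncomputable def pol {N : ℕ} (a : Fin (N + 1) → ℝ) : ℝ[X] :=
  ∑ t : Fin (N + 1), C (a t) * X ^ (t : ℕ)

theorem pol_coeff {N : ℕ} (a : Fin (N + 1) → ℝ) (t : Fin (N + 1)) : (pol a).coeff t = a t := by
  unfold pol
  rw [finset_sum_coeff, Finset.sum_eq_single t]
  · rw [coeff_C_mul, coeff_X_pow_self, mul_one]
  · intro s _ hs
    rw [coeff_C_mul, coeff_X_pow, if_neg, mul_zero]
    exact fun h => hs (Fin.ext h.symm)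
  · intro h
    exact absurd (Finset.mem_univ t) h

theorem eq_pol {N : ℕ} {u : ℝ[X]} (hu : u.natDegree ≤ N) : u = pol fun t : Fin (N + 1) => u.coeff t := by
  unfold pol
  rw [Fin.sum_univ_eq_sum_range (fun k => C (u.coeff k) * X ^ k) (N + 1)]
  exact Polynomial.as_sum_range_C_mul_X_pow' u (Nat.lt_succ_of_le hu)

theorem mm_mulVec (n : ℕ) (c : Fin p → J) (P : Matrix (Fin p) J ℝ[X])
    (x : Fin p × Fin (p * n + 1) → ℝ) (a : Fin p × Fin (p * n + n + 1)) :
    (mm n c P).mulVec x a = if kap p n a.1 ≤ (a.2 : ℕ) then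
      (∑ i, pol (fun t => x (i, t)) * P i (c a.1)).coeff a.2 else 0 := by
  have h1 : (mm n c P).mulVec x a = ∑ b, mm n c P a b * x b := rfl
  rw [h1, Fintype.sum_prod_type]
  split_ifs with h
  · rw [finset_sum_coeff]
    refine Finset.sum_congr rfl fun i _ => ?_
    unfold pol
    rw [Finset.sum_mul, finset_sum_coeff]
    refine Finset.sum_congr rfl fun t _ => ?_
    show (if kap p n a.1 ≤ (a.2 : ℕ) then (X ^ (t : ℕ) * P i (c a.1)).coeff a.2 else 0) *
      x (i, t) = _
    rw [if_pos h, mul_assoc, coeff_C_mul, mul_comm]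
  · refine Finset.sum_eq_zero fun i _ => Finset.sum_eq_zero fun t _ => ?_
    show (if kap p n a.1 ≤ (a.2 : ℕ) then (X ^ (t : ℕ) * P i (c a.1)).coeff a.2 else 0) *
      x (i, t) = _
    rw [if_neg h, zero_mul]

/-- injectivity of the matrix implies the condition on the columns -/
theorem colInj_of_inj (n : ℕ) (c : Fin p → J) (P : Matrix (Fin p) J ℝ[X])
    (h : ∀ x, (mm n c P).mulVec x = 0 → x = 0) : ColInj n c P := by
  intro u hu hc
  have h1 : ∀ i, u i = pol fun t : Fin (p * n + 1) => (u i).coeff t := fun i => eq_pol (hu i)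
  have h2 : (fun b : Fin p × Fin (p * n + 1) => (u b.1).coeff b.2) = 0 := by
    apply h
    funext a
    rw [mm_mulVec]
    have h3 : ∑ i, pol (fun t : Fin (p * n + 1) => (u i).coeff t) * P i (c a.1) =
        ∑ i, u i * P i (c a.1) :=
      Finset.sum_congr rfl fun i _ => by rw [← h1]
    show (if kap p n a.1 ≤ (a.2 : ℕ) then
      (∑ i, pol (fun t : Fin (p * n + 1) => (u i).coeff t) * P i (c a.1)).coeff a.2 else 0) = 0
    rw [h3]
    split_ifs with h4
    · exact hc a.1 a.2 h4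
    · rfl
  funext i
  rw [h1 i]
  unfold pol
  refine Finset.sum_eq_zero fun t _ => ?_
  have h3 := congrFun h2 (i, t)
  have h4 : (u i).coeff t = 0 := h3
  show C ((u i).coeff t) * X ^ (t : ℕ) = 0
  rw [h4, C_0, zero_mul]

/-- the generic polynomial for the condition on the columns -/
theorem exists_inj_poly (n : ℕ) (c : Fin p → J) {P₁ : Matrix (Fin p) J ℝ[X]}
    (hP₁ : ∀ i j, (P₁ i j).natDegree ≤ n) (h₁ : ∀ x, (mm n c P₁).mulVec x = 0 → x = 0) :
    ∃ h : MvPolynomial (Fin p × J × Fin (n + 1)) ℝ, MvPolynomial.eval (cf n P₁) h ≠ 0 ∧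
      ∀ P : Matrix (Fin p) J ℝ[X], (∀ i j, (P i j).natDegree ≤ n) →
        MvPolynomial.eval (cf n P) h ≠ 0 → ColInj n c P := by
  classical
  obtain ⟨g, hg⟩ := LinearMap.exists_leftInverse_of_injective (Matrix.toLin' (mm n c P₁))
    (LinearMap.ker_eq_bot'.2 fun x hx => h₁ x hx)
  let L := LinearMap.toMatrix' g
  have hL : L * mm n c P₁ = 1 := by
    have h2 := congrArg LinearMap.toMatrix' hg
    rw [LinearMap.toMatrix'_comp, LinearMap.toMatrix'_toLin', LinearMap.toMatrix'_id] at h2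
    exact h2
  let Lg : Matrix (Fin p × Fin (p * n + 1)) (Fin p × Fin (p * n + 1))
      (MvPolynomial (Fin p × J × Fin (n + 1)) ℝ) := L.map MvPolynomial.C * gmm n c
  let h : MvPolynomial (Fin p × J × Fin (n + 1)) ℝ := Lg.det
  have heval : ∀ P : Matrix (Fin p) J ℝ[X], (∀ i j, (P i j).natDegree ≤ n) →
      MvPolynomial.eval (cf n P) h = (L * mm n c P).det := by
    intro P hP
    show MvPolynomial.eval (cf n P) Lg.det = _
    rw [RingHom.map_det]
    congr 1
    ext1 a b
    show MvPolynomial.eval (cf n P) (Lg a b) = _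
    have h5 : Lg a b = ∑ e, (L.map MvPolynomial.C) a e * gmm n c e b := Matrix.mul_apply
    rw [h5, map_sum, Matrix.mul_apply]
    refine Finset.sum_congr rfl fun e _ => ?_
    rw [map_mul, eval_gmm n c hP, Matrix.map_apply, MvPolynomial.eval_C]
  refine ⟨h, ?_, fun P hP hne => ?_⟩
  · rw [heval P₁ hP₁, hL, Matrix.det_one]
    exact one_ne_zero
  · rw [heval P hP] at hne
    refine colInj_of_inj n c P fun x hx => ?_
    refine Matrix.eq_zero_of_mulVec_eq_zero hne ?_
    rw [← Matrix.mulVec_mulVec, hx, Matrix.mulVec_zero]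

end Pool.H30.PD
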