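import Pool.Agent.H30.PD.Basic

/-!
# [H30 PD LEAD] The coefficient of a determinant at the sum of the row degrees
-/

set_option autoImplicit false

open Polynomial

namespace Pool.H30.PD

variable {p : ℕ} {J : Type}

theorem coeff_prod_sum {ι : Type} (s : Finset ι) (f : ι → ℝ[X]) (d : ι → ℕ)
    (h : ∀ i ∈ s, (f i).natDegree ≤ d i) :
    (∏ i ∈ s, f i).natDegree ≤ ∑ i ∈ s, d i ∧
      (∏ i ∈ s, f i).coeff (∑ i ∈ s, d i) = ∏ i ∈ s, (f i).coeff (d i) := by
  classical
  induction s using Finset.induction_on with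
  | empty => simp
  | insert a s ha ih =>
    obtain ⟨h1, h2⟩ := ih fun i hi => h i (Finset.mem_insert_of_mem hi)
    have h3 := h a (Finset.mem_insert_self a s)
    rw [Finset.prod_insert ha, Finset.sum_insert ha, Finset.prod_insert ha]
    exact ⟨natDegree_mul_le.trans (add_le_add h3 h1),
      by rw [coeff_mul_add_eq_of_natDegree_le h3 h1, h2]⟩

/-- The determinant of a square matrix with row degrees at most `d`. -/
theorem det_lead (P : Matrix (Fin p) (Fin p) ℝ[X]) (d : Fin p → ℕ) (h : RowLe P d) :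
    P.det.natDegree ≤ ∑ i, d i ∧ P.det.coeff (∑ i, d i) = (lead P d).det := by
  have h1 : ∀ σ : Equiv.Perm (Fin p), (∏ i, P i (σ i)).natDegree ≤ ∑ i, d i ∧
      (∏ i, P i (σ i)).coeff (∑ i, d i) = ∏ i, (P i (σ i)).coeff (d i) := fun σ =>
    coeff_prod_sum Finset.univ (fun i => P i (σ i)) d fun i _ => h i (σ i)
  have h2 : P.det = ∑ σ : Equiv.Perm (Fin p), Equiv.Perm.sign σ • ∏ i, P i (σ i) := by
    rw [← Matrix.det_transpose, Matrix.det_apply]
    rfl
  have h3 : (lead P d).det = ∑ σ : Equiv.Perm (Fin p),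
      Equiv.Perm.sign σ • ∏ i, (P i (σ i)).coeff (d i) := by
    rw [← Matrix.det_transpose, Matrix.det_apply]
    rfl
  constructor
  · rw [h2]
    refine natDegree_sum_le_of_forall_le _ _ fun σ _ => ?_
    rcases Int.units_eq_one_or (Equiv.Perm.sign σ) with hs | hs
    · rw [hs, one_smul]
      exact (h1 σ).1
    · rw [hs, Units.neg_smul, one_smul, natDegree_neg]
      exact (h1 σ).1
  · rw [h2, h3, finset_sum_coeff]
    refine Finset.sum_congr rfl fun σ _ => ?_
    rcases Int.units_eq_one_or (Equiv.Perm.sign σ) with hs | hs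
    · rw [hs, one_smul, one_smul]
      exact (h1 σ).2
    · rw [hs, Units.neg_smul, one_smul, Units.neg_smul, one_smul, coeff_neg, (h1 σ).2]

theorem lead_submatrix (P : Matrix (Fin p) J ℝ[X]) (d : Fin p → ℕ) (e : Fin p → J) :
    (lead P d).submatrix id e = lead (P.submatrix id e) d := rfl

theorem RowLe.submatrix {P : Matrix (Fin p) J ℝ[X]} {d : Fin p → ℕ} (h : RowLe P d)
    (e : Fin p → J) : RowLe (P.submatrix id e) d := fun i j => h i (e j)

end Pool.H30.PD
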