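import Pool.Agent.H30.PD.Lead

/-!
# [H30 PD PRED] The predictable degree property of row reduced matrices
-/

set_option autoImplicit false

open Polynomial

namespace Pool.H30.PD

variable {p : ℕ} {J : Type}

/-- The rows of the leading coefficient matrix are linearly independent. -/
def RowRed (P : Matrix (Fin p) J ℝ[X]) (d : Fin p → ℕ) : Prop :=
  ∀ a : Fin p → ℝ, (∀ j, ∑ i, a i * (P i j).coeff (d i) = 0) → a = 0

theorem pred_degree {P : Matrix (Fin p) J ℝ[X]} {d : Fin p → ℕ} (h : RowLe P d)
    (hl : RowRed P d) (u : Fin p → ℝ[X]) (D : ℕ)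
    (hw : ∀ j, (∑ i, u i * P i j).natDegree ≤ D) (i : Fin p) :
    u i = 0 ∨ (u i).natDegree + d i ≤ D := by
  classical
  by_contra hcon
  rw [not_or] at hcon
  obtain ⟨hi0, hi1⟩ := hcon
  rw [not_le] at hi1
  let S : Finset (Fin p) := Finset.univ.filter fun i => u i ≠ 0
  have hiS : i ∈ S := Finset.mem_filter.2 ⟨Finset.mem_univ _, hi0⟩
  obtain ⟨k, hkS, hk⟩ := S.exists_max_image (fun i => (u i).natDegree + d i) ⟨i, hiS⟩
  set E := (u k).natDegree + d k with hE
  have hED : D < E := lt_of_lt_of_le hi1 (hk i hiS)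
  have hall : ∀ i, u i ≠ 0 → (u i).natDegree + d i ≤ E := fun i hi =>
    hk i (Finset.mem_filter.2 ⟨Finset.mem_univ _, hi⟩)
  let a : Fin p → ℝ := fun i => if d i ≤ E then (u i).coeff (E - d i) else 0
  have ha : a = 0 := by
    apply hl
    intro j
    have h1 : (∑ i, u i * P i j).coeff E = 0 :=
      coeff_eq_zero_of_natDegree_lt (lt_of_le_of_lt (hw j) hED)
    rw [finset_sum_coeff] at h1
    rw [← h1]
    refine Finset.sum_congr rfl fun i _ => ?_
    show (if d i ≤ E then (u i).coeff (E - d i) else 0) * (P i j).coeff (d i) = _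
    by_cases hu : u i = 0
    · rw [hu]
      simp
    · have h2 := hall i hu
      have h3 : d i ≤ E := le_trans (Nat.le_add_left _ _) h2
      rw [if_pos h3]
      have h4 := coeff_mul_add_eq_of_natDegree_le (f := u i) (g := P i j) (df := E - d i)
        (dg := d i) (by omega) (h i j)
      rw [Nat.sub_add_cancel h3] at h4
      exact h4.symm
  have h5 : a k = (u k).leadingCoeff := by
    show (if d k ≤ E then (u k).coeff (E - d k) else 0) = _
    rw [if_pos (Nat.le_add_left _ _), hE, Nat.add_sub_cancel]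
    rfl
  rw [ha] at h5
  have h6 : u k ≠ 0 := (Finset.mem_filter.1 hkS).2
  exact leadingCoeff_ne_zero.2 h6 h5.symm

end Pool.H30.PD
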