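import Pool.Agent.H30.PD.Pred

/-!
# [H30 PD RED] Row reduction by minimality of the sum of the row degrees
-/

set_option autoImplicit false

open Polynomial

namespace Pool.H30.PD

variable {p : ℕ} {J : Type}

private theorem det_updateRow_one' (k : Fin p) (v : Fin p → ℝ[X]) :
    ((1 : Matrix (Fin p) (Fin p) ℝ[X]).updateRow k v).det = v k := by
  rw [← Matrix.cramer_transpose_apply, Matrix.transpose_one, Matrix.cramer_one]
  rfl

theorem exists_reduced (P : Matrix (Fin p) J ℝ[X]) (d₀ : Fin p → ℕ) (h₀ : RowLe P d₀)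
    (e : Fin p → J) (he : (P.submatrix id e).det ≠ 0) :
    ∃ (V : Matrix (Fin p) (Fin p) ℝ[X]) (d : Fin p → ℕ), (∃ a : ℝ, a ≠ 0 ∧ V.det = C a) ∧
      RowLe (V * P) d ∧ RowRed (V * P) d := by
  classical
  let Q : ℕ → Prop := fun N => ∃ (V : Matrix (Fin p) (Fin p) ℝ[X]) (d : Fin p → ℕ),
    (∃ a : ℝ, a ≠ 0 ∧ V.det = C a) ∧ RowLe (V * P) d ∧ ∑ i, d i = N
  have hQ : ∃ N, Q N := ⟨∑ i, d₀ i, 1, d₀, ⟨1, one_ne_zero, by simp⟩, by rw [Matrix.one_mul]; exact h₀, rfl⟩
  obtain ⟨V, d, ⟨c, hc, hV⟩, hd, hN⟩ := Nat.find_spec hQ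
  refine ⟨V, d, ⟨c, hc, hV⟩, hd, ?_⟩
  by_contra hcon
  unfold RowRed at hcon
  push Not at hcon
  obtain ⟨a, ha, ha0⟩ := hcon
  set P' := V * P with hP'
  have hdet : (P'.submatrix id e).det ≠ 0 := by
    have h1 : P'.submatrix id e = V * P.submatrix id e := by
      ext i j
      rfl
    rw [h1, Matrix.det_mul, hV]
    exact mul_ne_zero (C_ne_zero.2 hc) he
  let S : Finset (Fin p) := Finset.univ.filter fun i => a i ≠ 0
  have hS : S.Nonempty := by
    by_contra hS
    rw [Finset.not_nonempty_iff_eq_empty] at hS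
    apply ha0
    funext i
    by_contra hi
    have : i ∈ S := Finset.mem_filter.2 ⟨Finset.mem_univ _, hi⟩
    rw [hS] at this
    exact absurd this (Finset.notMem_empty i)
  obtain ⟨k, hkS, hk⟩ := S.exists_max_image d hS
  have hak : a k ≠ 0 := (Finset.mem_filter.1 hkS).2
  have hmax : ∀ i, a i ≠ 0 → d i ≤ d k := fun i hi =>
    hk i (Finset.mem_filter.2 ⟨Finset.mem_univ _, hi⟩)
  let v : Fin p → ℝ[X] := fun i => C (a i) * X ^ (d k - d i)
  -- the combination of the rows
  have hcomb : ∀ j, (∑ i, v i * P' i j).natDegree ≤ d k ∧ (∑ i, v i * P' i j).coeff (d k) = 0 := by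
    intro j
    have h1 : ∀ i, (v i * P' i j).natDegree ≤ d k ∧
        (v i * P' i j).coeff (d k) = a i * (P' i j).coeff (d i) := by
      intro i
      by_cases hi : a i = 0
      · have hv : v i = 0 := by
          show C (a i) * X ^ (d k - d i) = 0
          rw [hi, C_0, zero_mul]
        rw [hv, zero_mul, hi, zero_mul]
        exact ⟨by simp, by simp⟩
      · have h2 := hmax i hi
        have h3 : (v i).natDegree ≤ d k - d i := natDegree_C_mul_X_pow_le _ _
        have h4 : (v i).coeff (d k - d i) = a i := by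
          show (C (a i) * X ^ (d k - d i)).coeff (d k - d i) = a i
          rw [coeff_C_mul, coeff_X_pow_self, mul_one]
        have h5 := coeff_mul_add_eq_of_natDegree_le h3 (hd i j)
        rw [Nat.sub_add_cancel h2, h4] at h5
        refine ⟨(natDegree_mul_le.trans (add_le_add h3 (hd i j))).trans ?_, h5⟩
        omega
    constructor
    · exact natDegree_sum_le_of_forall_le _ _ fun i _ => (h1 i).1
    · rw [finset_sum_coeff, ← ha j]
      exact Finset.sum_congr rfl fun i _ => (h1 i).2
  rcases Nat.eq_zero_or_pos (d k) with hdk | hdk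
  · -- all rows involved are constant
    have hz : ∀ j, ∑ i, v i * P' i j = 0 := by
      intro j
      obtain ⟨h1, h2⟩ := hcomb j
      rw [hdk] at h1 h2
      rw [eq_C_of_natDegree_le_zero h1, h2, C_0]
    apply hdet
    rw [← Matrix.exists_vecMul_eq_zero_iff]
    refine ⟨v, ?_, ?_⟩
    · intro hv
      have h1 := congrFun hv k
      have h2 : v k = C (a k) := by
        show C (a k) * X ^ (d k - d k) = C (a k)
        rw [Nat.sub_self, pow_zero, mul_one]
      rw [h2] at h1
      exact hak (C_eq_zero.1 h1)
    · funext l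
      exact hz (e l)
  · -- the sum of the degrees can be decreased
    let E : Matrix (Fin p) (Fin p) ℝ[X] := (1 : Matrix (Fin p) (Fin p) ℝ[X]).updateRow k v
    have hE : E.det = C (a k) := by
      rw [det_updateRow_one']
      show C (a k) * X ^ (d k - d k) = C (a k)
      rw [Nat.sub_self, pow_zero, mul_one]
    have hEk : ∀ i, E k i = v i := fun i => by
      show (1 : Matrix (Fin p) (Fin p) ℝ[X]).updateRow k v k i = v i
      rw [Matrix.updateRow_self]
    have hEi : ∀ i, i ≠ k → ∀ l, E i l = (1 : Matrix (Fin p) (Fin p) ℝ[X]) i l := fun i hi l => by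
      show (1 : Matrix (Fin p) (Fin p) ℝ[X]).updateRow k v i l = _
      rw [Matrix.updateRow_ne hi]
    have hrow : ∀ j, (E * P') k j = ∑ i, v i * P' i j := by
      intro j
      rw [Matrix.mul_apply]
      refine Finset.sum_congr rfl fun i _ => ?_
      rw [hEk]
    have hrow' : ∀ i, i ≠ k → ∀ j, (E * P') i j = P' i j := by
      intro i hi j
      rw [Matrix.mul_apply]
      have h1 : ∀ l, E i l * P' l j = (1 : Matrix (Fin p) (Fin p) ℝ[X]) i l * P' l j := by
        intro l
        rw [hEi i hi]
      simp_rw [h1]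
      rw [← Matrix.mul_apply, Matrix.one_mul]
    let d' : Fin p → ℕ := Function.update d k (d k - 1)
    have hlt : ∑ i, d' i < ∑ i, d i := by
      refine Finset.sum_lt_sum (fun i _ => ?_) ⟨k, Finset.mem_univ _, ?_⟩
      · show Function.update d k (d k - 1) i ≤ d i
        by_cases hi : i = k
        · rw [hi, Function.update_self]
          omega
        · rw [Function.update_of_ne hi]
      · show Function.update d k (d k - 1) k < d k
        rw [Function.update_self]
        omega
    have hmin : Q (∑ i, d' i) := by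
      refine ⟨E * V, d', ⟨a k * c, mul_ne_zero hak hc, ?_⟩, ?_, rfl⟩
      · rw [Matrix.det_mul, hE, hV, C_mul]
      · rw [Matrix.mul_assoc, ← hP']
        intro i j
        by_cases hi : i = k
        · rw [hi, hrow]
          show _ ≤ Function.update d k (d k - 1) k
          rw [Function.update_self]
          obtain ⟨h1, h2⟩ := hcomb j
          rw [natDegree_le_iff_coeff_eq_zero]
          intro N hN
          rcases Nat.lt_or_ge (d k) N with h3 | h3
          · exact coeff_eq_zero_of_natDegree_lt (lt_of_le_of_lt h1 h3)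
          · have h4 : N = d k := by omega
            rw [h4]
            exact h2
        · rw [hrow' i hi]
          show _ ≤ Function.update d k (d k - 1) i
          rw [Function.update_of_ne hi]
          exact hd i j
    have h1 := Nat.find_min' hQ hmin
    rw [← hN] at h1
    omega

end Pool.H30.PD
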