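import Pool.Agent.H30.PD.Gen
import Pool.Agent.H30.PD.Decomp

/-!
# [H30 PD SPEC] Generic matrices have a balanced decomposition
-/

set_option autoImplicit false

open Polynomial

namespace Pool.H30.PD

variable {p : ℕ} {J : Type}

open Classical in
/-- the diagonal matrix with balanced degrees -/
noncomputable def P1 (p n : ℕ) (c : Fin p → J) : Matrix (Fin p) J ℝ[X] :=
  Matrix.of fun i j => if j = c i then X ^ kap p n i else 0

theorem P1_c (n : ℕ) {c : Fin p → J} (hc : Function.Injective c) (i l : Fin p) :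
    P1 p n c i (c l) = if l = i then X ^ kap p n i else 0 := by
  classical
  show (if c l = c i then X ^ kap p n i else 0) = _
  by_cases h : l = i
  · rw [h, if_pos rfl, if_pos rfl]
  · rw [if_neg (fun hcc => h (hc hcc)), if_neg h]

theorem P1_rowLe (n : ℕ) (c : Fin p → J) : RowLe (P1 p n c) (kap p n) := by
  classical
  intro i j
  show (if j = c i then X ^ kap p n i else 0 : ℝ[X]).natDegree ≤ kap p n i
  split_ifs
  · rw [natDegree_X_pow]
  · rw [natDegree_zero]
    exact Nat.zero_le _

theorem P1_det (hp : 0 < p) (n : ℕ) {c : Fin p → J} (hc : Function.Injective c) :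
    ((P1 p n c).submatrix id c).det = X ^ n := by
  classical
  have h1 : (P1 p n c).submatrix id c = Matrix.diagonal fun i => X ^ kap p n i := by
    ext1 i l
    show P1 p n c i (c l) = _
    rw [P1_c n hc]
    by_cases h : l = i
    · rw [h, if_pos rfl, Matrix.diagonal_apply_eq]
    · rw [if_neg h, Matrix.diagonal_apply_ne _ (Ne.symm h)]
  rw [h1, Matrix.det_diagonal, Finset.prod_pow_eq_pow_sum, sum_kap hp]

theorem P1_isSys (hp : 0 < p) (n : ℕ) {c : Fin p → J} (hc : Function.Injective c) :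
    IsSys n (P1 p n c) := by
  refine ⟨fun e => ?_, c, ?_, ?_⟩
  · have h1 := (det_lead _ (kap p n) ((P1_rowLe n c).submatrix e)).1
    rwa [sum_kap hp] at h1
  · rw [P1_det hp n hc]
    exact pow_ne_zero _ X_ne_zero
  · rw [P1_det hp n hc, natDegree_X_pow]

theorem P1_inj (hp : 0 < p) (n : ℕ) {c : Fin p → J} (hc : Function.Injective c)
    (x : Fin p × Fin (p * n + 1) → ℝ) (hx : (mm n c (P1 p n c)).mulVec x = 0) : x = 0 := by
  funext ⟨l, t⟩
  have hk := kap_le hp n l
  have ht := t.2
  have h1 := congrFun hx (l, ⟨t + kap p n l, by omega⟩)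
  rw [mm_mulVec, if_pos (Nat.le_add_left _ _), Pi.zero_apply] at h1
  have h2 : ∑ i, pol (fun t => x (i, t)) * P1 p n c i (c l) =
      pol (fun t => x (l, t)) * X ^ kap p n l := by
    rw [Finset.sum_eq_single l]
    · rw [P1_c n hc, if_pos rfl]
    · intro i _ hi
      rw [P1_c n hc, if_neg (Ne.symm hi), mul_zero]
    · intro h
      exact absurd (Finset.mem_univ l) h
  have h3 : (∑ i, pol (fun t => x (i, t)) * P1 p n c i (c l)).coeff (t + kap p n l) = 0 := h1
  rw [h2, coeff_mul_X_pow, pol_coeff] at h3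
  exact h3

/-- **Generic matrices have a balanced decomposition.** There is a polynomial `h` in the coefficients,
which does not vanish identically on the matrices of McMillan degree `n`, such that every such matrix
with `h ≠ 0` is of the form `P = U P'`, `U` unimodular, `P'` with the balanced row degrees `kap p n`, and
`deg U i j + kap p n j ≤ n`. -/
theorem exists_generic (hp : 0 < p) [Fintype J] (n : ℕ) {c : Fin p → J}
    (hc : Function.Injective c) :
    ∃ h : MvPolynomial (Fin p × J × Fin (n + 1)) ℝ,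
      (∃ P : Matrix (Fin p) J ℝ[X], (∀ i j, (P i j).natDegree ≤ n) ∧ IsSys n P ∧
        MvPolynomial.eval (cf n P) h ≠ 0) ∧
      ∀ P : Matrix (Fin p) J ℝ[X], (∀ i j, (P i j).natDegree ≤ n) → IsSys n P →
        MvPolynomial.eval (cf n P) h ≠ 0 →
        ∃ (U : Matrix (Fin p) (Fin p) ℝ[X]) (P' : Matrix (Fin p) J ℝ[X]), P = U * P' ∧
          (∃ a : ℝ, a ≠ 0 ∧ U.det = C a) ∧ RowLe P' (kap p n) ∧
          ∀ i j, U i j = 0 ∨ (U i j).natDegree + kap p n j ≤ n := by
  have hP1 : ∀ i j, (P1 p n c i j).natDegree ≤ n := fun i j =>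
    (P1_rowLe n c i j).trans (kap_le hp n i)
  obtain ⟨h1, hne1, hall1⟩ := exists_inj_poly n c hP1 (P1_inj hp n hc)
  let h2 : MvPolynomial (Fin p × J × Fin (n + 1)) ℝ := ((gen p J n).submatrix id c).det.coeff n
  refine ⟨h1 * h2, ⟨P1 p n c, hP1, P1_isSys hp n hc, ?_⟩, fun P hPn hP hne => ?_⟩
  · rw [map_mul, eval_det n n c hP1, P1_det hp n hc, coeff_X_pow_self, mul_one]
    exact hne1
  · rw [map_mul, eval_det n n c hPn] at hne
    have h3 : (P.submatrix id c).det ≠ 0 := by
      intro h0
      rw [h0, coeff_zero, mul_zero] at hne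
      exact hne rfl
    exact decomp hp hPn hP c h3 (hall1 P hPn (left_ne_zero_of_mul hne))

/-! ### The path -/

/-- the path from `U P₀` to `U P'` at the time `t` -/
noncomputable def path (U : Matrix (Fin p) (Fin p) ℝ[X]) (P₀ P' : Matrix (Fin p) J ℝ[X]) (t : ℝ) :
    Matrix (Fin p) J ℝ[X] :=
  U * Matrix.of fun i j => P₀ i j + C t * (P' i j - P₀ i j)

theorem path_row {P₀ P' : Matrix (Fin p) J ℝ[X]} {d : Fin p → ℕ} (h₀ : RowLe P₀ d)
    (h' : RowLe P' d) (t : ℝ) :
    RowLe (Matrix.of fun i j => P₀ i j + C t * (P' i j - P₀ i j)) d := by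
  intro i j
  show (P₀ i j + C t * (P' i j - P₀ i j)).natDegree ≤ d i
  refine (natDegree_add_le _ _).trans (max_le (h₀ i j) ?_)
  refine (natDegree_C_mul_le _ _).trans ?_
  exact (natDegree_sub_le _ _).trans (max_le (h' i j) (h₀ i j))

/-- the path stays in the coefficient space, except that the McMillan degree may drop -/
theorem path_mem (hp : 0 < p) {n : ℕ} {U : Matrix (Fin p) (Fin p) ℝ[X]}
    {P₀ P' : Matrix (Fin p) J ℝ[X]} {a : ℝ} (hU : U.det = C a)
    (hUd : ∀ i j, U i j = 0 ∨ (U i j).natDegree + kap p n j ≤ n) (h₀ : RowLe P₀ (kap p n))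
    (h' : RowLe P' (kap p n)) (t : ℝ) :
    (∀ i j, (path U P₀ P' t i j).natDegree ≤ n) ∧
      ∀ e : Fin p → J, ((path U P₀ P' t).submatrix id e).det.natDegree ≤ n := by
  have hr := path_row h₀ h' t
  constructor
  · intro i j
    unfold path
    rw [Matrix.mul_apply]
    refine natDegree_sum_le_of_forall_le _ _ fun k _ => ?_
    rcases hUd i k with h1 | h1
    · rw [h1, zero_mul, natDegree_zero]
      exact Nat.zero_le _
    · exact (natDegree_mul_le.trans (add_le_add le_rfl (hr k j))).trans h1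
  · intro e
    unfold path
    rw [minor_mul U _ hU e]
    refine (natDegree_C_mul_le _ _).trans ?_
    have h1 := (det_lead _ (kap p n) (hr.submatrix e)).1
    rwa [sum_kap hp] at h1

theorem path_one (U : Matrix (Fin p) (Fin p) ℝ[X]) (P₀ P' : Matrix (Fin p) J ℝ[X]) :
    path U P₀ P' 1 = U * P' := by
  unfold path
  congr 1
  ext1 i j
  show P₀ i j + C 1 * (P' i j - P₀ i j) = P' i j
  rw [C_1]
  ring

theorem path_zero (U : Matrix (Fin p) (Fin p) ℝ[X]) (P₀ P' : Matrix (Fin p) J ℝ[X]) :
    path U P₀ P' 0 = U * P₀ := by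
  unfold path
  congr 1
  ext1 i j
  show P₀ i j + C 0 * (P' i j - P₀ i j) = P₀ i j
  rw [C_0]
  ring

end Pool.H30.PD
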