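import Pool.Agent.H30.PD.Reduce

/-!
# [H30 PD SUM] The sum of the row degrees of a row reduced matrix is the McMillan degree
-/

set_option autoImplicit false

open Polynomial

namespace Pool.H30.PD

variable {p : ℕ} {J : Type}

/-- a nonvanishing maximal minor -/
theorem exists_minor [Fintype J] (M : Matrix (Fin p) J ℝ)
    (h : ∀ a : Fin p → ℝ, (∀ j, ∑ i, a i * M i j = 0) → a = 0) :
    ∃ e : Fin p → J, (M.submatrix id e).det ≠ 0 := by
  classical
  have hinj : Function.Injective M.transpose.mulVecLin := by
    rw [injective_iff_map_eq_zero]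
    intro x hx
    refine h x fun j => ?_
    have h1 := congrFun hx j
    rw [Matrix.mulVecLin_apply] at h1
    have h2 : M.transpose.mulVec x j = ∑ i, M i j * x i := rfl
    rw [h2] at h1
    rw [Pi.zero_apply] at h1
    rw [← h1]
    exact Finset.sum_congr rfl fun i _ => mul_comm _ _
  have hrank : Module.finrank ℝ (Submodule.span ℝ (Set.range M.transpose.row)) = p := by
    rw [← Matrix.rank_eq_finrank_span_row]
    unfold Matrix.rank
    rw [LinearMap.finrank_range_of_inj hinj, Module.finrank_fin_fun]
  obtain ⟨b, hb, hspan, hli⟩ := exists_linearIndependent ℝ (Set.range M.transpose.row)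
  have hbf : b.Finite := (Set.finite_range M.transpose.row).subset hb
  have : Fintype b := hbf.fintype
  have hcard : Fintype.card b = p := by
    have h1 := finrank_span_set_eq_card hli
    rw [hspan, hrank, Set.toFinset_card] at h1
    exact h1.symm
  have hch : ∀ v : b, ∃ i : J, M.transpose.row i = v := fun v => hb v.2
  choose s hs using hch
  let e : Fin p ≃ b := (Fintype.equivFinOfCardEq hcard).symm
  refine ⟨fun i => s (e i), ?_⟩
  have h1 : LinearIndependent ℝ (M.transpose.submatrix (fun i => s (e i)) id).row := by
    have h2 := hli.comp e e.injective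
    have h3 : (M.transpose.submatrix (fun i => s (e i)) id).row =
        (fun v : b => (v : Fin p → ℝ)) ∘ e := by
      funext i
      rw [Function.comp_apply, ← hs (e i)]
      rfl
    rw [h3]
    exact h2
  rw [Matrix.linearIndependent_rows_iff_isUnit, Matrix.isUnit_iff_isUnit_det] at h1
  have h4 : (M.submatrix id fun i => s (e i)).det =
      (M.transpose.submatrix (fun i => s (e i)) id).det := by
    rw [← Matrix.det_transpose]
    rfl
  rw [h4]
  exact h1.ne_zero

/-- multiplication by a unimodular matrix does not change the McMillan degree -/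
theorem minor_mul (V : Matrix (Fin p) (Fin p) ℝ[X]) (P : Matrix (Fin p) J ℝ[X]) {a : ℝ}
    (hV : V.det = C a) (e : Fin p → J) :
    ((V * P).submatrix id e).det = C a * (P.submatrix id e).det := by
  have h1 : (V * P).submatrix id e = V * P.submatrix id e := by
    ext i j
    rfl
  rw [h1, Matrix.det_mul, hV]

theorem sum_eq [Fintype J] {n : ℕ} {P : Matrix (Fin p) J ℝ[X]} (hP : IsSys n P)
    {V : Matrix (Fin p) (Fin p) ℝ[X]} {a : ℝ} (ha : a ≠ 0) (hV : V.det = C a) {d : Fin p → ℕ}
    (hd : RowLe (V * P) d) (hr : RowRed (V * P) d) : ∑ i, d i = n := by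
  have hdeg : ∀ e : Fin p → J, ((V * P).submatrix id e).det.natDegree =
      (P.submatrix id e).det.natDegree := by
    intro e
    rw [minor_mul V P hV e, natDegree_C_mul ha]
  apply le_antisymm
  · obtain ⟨e, he⟩ := exists_minor (lead (V * P) d) hr
    rw [lead_submatrix, ← (det_lead _ d (hd.submatrix e)).2] at he
    have h1 := le_natDegree_of_ne_zero he
    rw [hdeg] at h1
    exact h1.trans (hP.1 e)
  · obtain ⟨e, -, he⟩ := hP.2
    rw [← he, ← hdeg]
    exact (det_lead _ d (hd.submatrix e)).1

end Pool.H30.PD
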